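import Pool.Agent.helper14.SCO.Spec

/-!
# Row sco:OPC (MP_bfc607_gt)
-/

set_option autoImplicit false

namespace Pool.Agent.SCO

open Pool.Agent.Scheepers Cardinal

theorem OPC : OPC_stmt := by
  intro V hV
  have hne : {c : Code | dec c ⊆ V}.Nonempty := by
    refine ⟨⟨0, ∅⟩, ?_⟩
    intro z hz
    exact absurd hz (Set.notMem_empty _)
  obtain ⟨f, hf⟩ := (Set.to_countable {c : Code | dec c ⊆ V}).exists_eq_range hne
  refine ⟨f, ?_⟩
  apply Set.Subset.antisymm
  · intro z hz
    unfold opn at hz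
    rw [Set.mem_iUnion] at hz
    obtain ⟨j, hj⟩ := hz
    have h1 : f j ∈ {c : Code | dec c ⊆ V} := by
      rw [hf]
      exact ⟨j, rfl⟩
    exact h1 hj
  · intro z hz
    obtain ⟨b, hb⟩ := exists_cyl hV hz
    have hs : Supp b {v : ℕ → Bool | ∀ e, e < b → v e = z e} := by
      intro u v huv hu e he
      rw [← huv e he]
      exact hu e he
    obtain ⟨c, hc⟩ := exists_code hs
    have h1 : c ∈ {c : Code | dec c ⊆ V} := by
      intro v hv
      rw [hc] at hv
      exact hb v hv
    rw [hf] at h1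
    obtain ⟨j, hj⟩ := h1
    unfold opn
    rw [Set.mem_iUnion]
    refine ⟨j, ?_⟩
    rw [hj, hc]
    intro e _
    rfl

end Pool.Agent.SCO
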