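import Pool.Agent.helper14.SCO.Spec

/-!
# Row sco:KFD (MP_bfc607_gt)
-/

set_option autoImplicit false

namespace Pool.Agent.SCO

open Pool.Agent.Scheepers Cardinal

theorem KFD_Reg_mono {l l' : ℕ} (h : l ≤ l') : Reg l ⊆ Reg l' := by
  rintro w ⟨e, he, hw⟩
  exact ⟨e, lt_of_lt_of_le he h, hw⟩

theorem KFD_star (p : Cond) (J : ℕ) (hlg : ∀ j, J ≤ j → Lg (p.A j) (p.a j) (p.a (j + 1)))
    (t : Finset (ℕ × ℕ)) (ht : (t : Set (ℕ × ℕ)) ⊆ Reg (p.a J)) (v : ℕ → Bool) :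
    cat (p.a J) v (dlt t) ∈ p.star := by
  refine ⟨J, fun j hj => ?_⟩
  have h1 : p.a J ≤ p.a j := p.mono.monotone hj
  have h2 := (hlg j hj t (ht.trans (KFD_Reg_mono h1))).1
  refine p.loc j (dlt t) _ (fun e he _ => ?_) h2
  unfold cat
  rw [if_neg (by omega)]

theorem KFD_mem (l : ℕ) (t : Finset (ℕ × ℕ)) (v : ℕ → Bool) : cat l v (dlt t) ∈ D := by
  refine ⟨t, l, fun e he => ?_⟩
  unfold cat
  rw [if_neg (by omega)]

theorem KFD (h1 : RFI_stmt) (h2 : DP2_stmt) : KFD_stmt := by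
  intro p J W b V hH
  have hfin : (Reg (p.a J)).Finite := h1 (p.a J)
  obtain ⟨ext, hext⟩ : ∃ ext : (Fin (p.a J) → Bool) → ℕ → Bool,
      ext = fun g e => if h : e < p.a J then g ⟨e, h⟩ else false := ⟨_, rfl⟩
  have hcat : ∀ (v z : ℕ → Bool), cat (p.a J) v z = cat (p.a J) (ext fun i => v i) z := by
    intro v z
    funext e
    unfold cat
    by_cases he : e < p.a J
    · rw [if_pos he, if_pos he, hext]
      simp only
      rw [dif_pos he]
    · rw [if_neg he, if_neg he]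
  have hev : ∀ᶠ k in Filter.atTop, ∀ t ∈ hfin.toFinset.powerset, ∀ g : Fin (p.a J) → Bool,
      cat (p.a J) (ext g) (dlt t) ∉ W k := by
    rw [Filter.eventually_all_finset]
    intro t ht
    rw [Filter.eventually_all]
    intro g
    have ht' : (t : Set (ℕ × ℕ)) ⊆ Reg (p.a J) := by
      intro w hw
      have := (Finset.mem_powerset.mp ht) hw
      exact hfin.mem_toFinset.mp this
    have h3 := KFD_mem (p.a J) t (ext g)
    obtain ⟨k0, hk0⟩ := hH.cv _ (KFD_star p J hH.lg t ht' (ext g)) ⟨h2 h3, fun i => (hH.nb i).2 h3⟩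
    exact Filter.eventually_atTop.mpr ⟨k0, hk0⟩
  obtain ⟨K, hK⟩ := Filter.eventually_atTop.mp hev
  refine ⟨K, fun k hk t ht v => ?_⟩
  rw [hcat]
  refine hK k hk t (Finset.mem_powerset.mpr fun w hw => ?_) _
  exact hfin.mem_toFinset.mpr (ht hw)

end Pool.Agent.SCO
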